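import Mathlib

/-!
# The normalised Bessel function of order greater than -1 has a positive zero
-/

open Filter Topology Set

namespace Pool.Agent.Q210.HC

noncomputable section

/-- The coefficients `1 / (k! Γ(μ+k+1))`. -/
def e (μ : ℝ) (k : ℕ) : ℝ := 1 / ((k.factorial : ℝ) * Real.Gamma (μ + k + 1))

theorem gam_pos {μ : ℝ} (h : -1 < μ) (k : ℕ) : 0 < Real.Gamma (μ + k + 1) := by
  apply Real.Gamma_pos_of_pos
  have : (0 : ℝ) ≤ k := Nat.cast_nonneg k
  linarith

theorem e_pos {μ : ℝ} (h : -1 < μ) (k : ℕ) : 0 < e μ k := by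
  unfold e
  have h1 := gam_pos h k
  have h2 : (0 : ℝ) < k.factorial := by exact_mod_cast k.factorial_pos
  positivity

theorem gam_succ {μ : ℝ} (h : -1 < μ) (k : ℕ) :
    Real.Gamma (μ + k + 2) = (μ + k + 1) * Real.Gamma (μ + k + 1) := by
  have hk : (0 : ℝ) ≤ k := Nat.cast_nonneg k
  have : μ + k + 1 ≠ 0 := by
    have : 0 < μ + k + 1 := by linarith
    exact this.ne'
  rw [← Real.Gamma_add_one this]
  congr 1
  ring

theorem e_succ {μ : ℝ} (h : -1 < μ) (k : ℕ) :
    e μ (k + 1) = e μ k / (((k : ℝ) + 1) * (μ + k + 1)) := by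
  unfold e
  have hk : (0 : ℝ) ≤ k := Nat.cast_nonneg k
  have h1 : 0 < μ + k + 1 := by linarith
  have h2 := gam_pos h k
  have h3 : (0 : ℝ) < k.factorial := by exact_mod_cast k.factorial_pos
  rw [Nat.factorial_succ]
  push_cast
  rw [show μ + (k + 1 : ℝ) + 1 = μ + k + 2 by ring, gam_succ h k]
  field_simp

theorem succ_e {μ : ℝ} (k : ℕ) : ((k : ℝ) + 1) * e μ (k + 1) = e (μ + 1) k := by
  unfold e
  rw [Nat.factorial_succ]
  push_cast
  rw [show μ + ((k : ℝ) + 1) + 1 = μ + 1 + k + 1 by ring]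
  have h3 : (0 : ℝ) < k.factorial := by exact_mod_cast k.factorial_pos
  have h4 : (0 : ℝ) < (k : ℝ) + 1 := by positivity
  field_simp

theorem e_summable {μ : ℝ} (h : -1 < μ) (R : ℝ) : Summable fun k => e μ k * R ^ k := by
  rcases eq_or_ne R 0 with rfl | hR
  · refine summable_of_ne_finset_zero (s := {0}) fun k hk => ?_
    have : k ≠ 0 := by simpa using hk
    simp [this]
  refine summable_of_ratio_test_tendsto_lt_one (l := 0) zero_lt_one ?_ ?_
  · exact Eventually.of_forall fun k => mul_ne_zero (e_pos h k).ne' (pow_ne_zero k hR)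
  · have h1 : ∀ k : ℕ, ‖e μ (k + 1) * R ^ (k + 1)‖ / ‖e μ k * R ^ k‖ =
        |R| / (((k : ℝ) + 1) * (μ + k + 1)) := by
      intro k
      have hk : (0 : ℝ) ≤ k := Nat.cast_nonneg k
      have h2 : 0 < μ + k + 1 := by linarith
      have h3 := e_pos h k
      have h4 : 0 < |R| := abs_pos.mpr hR
      rw [e_succ h, norm_mul, norm_mul, norm_div, norm_mul, norm_pow, norm_pow, Real.norm_eq_abs,
        Real.norm_eq_abs, Real.norm_eq_abs, Real.norm_eq_abs, abs_of_pos h3, abs_of_pos h2,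
        abs_of_pos (show (0 : ℝ) < k + 1 by positivity), pow_succ]
      field_simp
    simp_rw [h1]
    have h5 : Tendsto (fun k : ℕ => ((k : ℝ) + 1) * (μ + k + 1)) atTop atTop := by
      have a1 : Tendsto (fun k : ℕ => (k : ℝ) + 1) atTop atTop :=
        tendsto_atTop_add_const_right _ _ tendsto_natCast_atTop_atTop
      have a2 : Tendsto (fun k : ℕ => μ + (k : ℝ) + 1) atTop atTop :=
        tendsto_atTop_add_const_right _ _
          (tendsto_atTop_add_const_left _ _ tendsto_natCast_atTop_atTop)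
      exact a1.atTop_mul_atTop₀ a2
    exact Tendsto.const_div_atTop h5 |R|

/-- The normalised Bessel function in the variable `c`. -/
def j (μ c : ℝ) : ℝ := ∑' k, e μ k * (-c) ^ k

theorem j_zero (μ : ℝ) : j μ 0 = e μ 0 := by
  unfold j
  rw [tsum_eq_single 0]
  · simp
  · intro k hk
    simp [hk]

theorem j_hasDerivAt {μ : ℝ} (h : -1 < μ) (c : ℝ) : HasDerivAt (j μ) (-(j (μ + 1) c)) c := by
  have h' : -1 < μ + 1 := by linarith
  set R : ℝ := |c| + 1 with hR
  have hR0 : 0 < R := by positivity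
  let u : ℕ → ℝ := fun k => e μ k * k * R ^ (k - 1)
  have hu : Summable u := by
    rw [← summable_nat_add_iff 1]
    refine (e_summable h' R).congr fun k => ?_
    show e (μ + 1) k * R ^ k = e μ (k + 1) * ((k + 1 : ℕ) : ℝ) * R ^ (k + 1 - 1)
    rw [← succ_e, Nat.add_sub_cancel]
    push_cast
    ring
  have hd := hasDerivAt_tsum_of_isPreconnected (u := u)
    (g := fun (k : ℕ) (y : ℝ) => e μ k * (-y) ^ k)
    (g' := fun (k : ℕ) (y : ℝ) => e μ k * (k * (-y) ^ (k - 1) * (-1))) (t := Metric.ball (0 : ℝ) R)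
    (y₀ := 0) (y := c) hu Metric.isOpen_ball (convex_ball (0 : ℝ) R).isPreconnected ?_ ?_
    (Metric.mem_ball_self hR0) ?_ ?_
  · have h1 : (∑' k : ℕ, e μ k * (k * (-c) ^ (k - 1) * (-1))) = -(j (μ + 1) c) := by
      rw [Summable.tsum_eq_zero_add]
      · simp only [Nat.cast_zero, zero_mul, mul_zero, zero_add]
        unfold j
        rw [← tsum_neg]
        refine tsum_congr fun k => ?_
        rw [← succ_e]
        push_cast
        simp
        ring
      · refine Summable.of_norm_bounded hu fun k => ?_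
        show ‖e μ k * (k * (-c) ^ (k - 1) * (-1))‖ ≤ e μ k * k * R ^ (k - 1)
        rw [norm_mul, norm_mul, norm_mul, norm_pow, norm_neg, Real.norm_of_nonneg (e_pos h k).le,
          Real.norm_of_nonneg (Nat.cast_nonneg k), norm_neg, norm_one, mul_one, mul_assoc]
        refine mul_le_mul_of_nonneg_left (mul_le_mul_of_nonneg_left ?_ (Nat.cast_nonneg k))
          (e_pos h k).le
        exact pow_le_pow_left₀ (norm_nonneg _) (by rw [Real.norm_eq_abs, hR]; linarith) _
    rw [h1] at hd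
    exact hd
  · intro k y _
    have h2 : HasDerivAt (fun y : ℝ => (-y) ^ k) (k * (-y) ^ (k - 1) * (-1)) y :=
      (hasDerivAt_neg y).fun_pow k
    exact h2.const_mul (e μ k)
  · intro k y hy
    have hy' : |y| < R := by
      rw [Metric.mem_ball, dist_zero_right, Real.norm_eq_abs] at hy
      exact hy
    show ‖e μ k * (k * (-y) ^ (k - 1) * (-1))‖ ≤ e μ k * k * R ^ (k - 1)
    rw [norm_mul, norm_mul, norm_mul, norm_pow, norm_neg, Real.norm_of_nonneg (e_pos h k).le,
      Real.norm_of_nonneg (Nat.cast_nonneg k), norm_neg, norm_one, mul_one, mul_assoc]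
    refine mul_le_mul_of_nonneg_left (mul_le_mul_of_nonneg_left ?_ (Nat.cast_nonneg k))
      (e_pos h k).le
    exact pow_le_pow_left₀ (norm_nonneg _) (by rw [Real.norm_eq_abs]; exact hy'.le) _
  · have := e_summable h (-0 : ℝ)
    exact this
  · rw [Metric.mem_ball, dist_zero_right, Real.norm_eq_abs, hR]
    linarith

theorem j_rel {μ : ℝ} (h : -1 < μ) (c : ℝ) :
    (μ + 1) * j (μ + 1) c - c * j (μ + 2) c = j μ c := by
  have h1 : -1 < μ + 1 := by linarith
  have h2 : -1 < μ + 2 := by linarith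
  have s0 := e_summable h (-c)
  have s1 := e_summable h1 (-c)
  have s2 := e_summable h2 (-c)
  have c0 : e μ 0 = (μ + 1) * e (μ + 1) 0 := by
    unfold e
    have := gam_succ h 0
    have hg := gam_pos h 0
    simp only [Nat.cast_zero, add_zero, Nat.factorial_zero, Nat.cast_one, one_mul] at this hg ⊢
    rw [show μ + 1 + 1 = μ + 2 by ring, this]
    have : 0 < μ + 1 := by linarith
    field_simp
  have ck : ∀ k : ℕ, e μ (k + 1) = (μ + 1) * e (μ + 1) (k + 1) + e (μ + 2) k := by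
    intro k
    have a1 := e_succ h1 k
    have a2 : e (μ + 1) k = ((k : ℝ) + 1) * e μ (k + 1) := (succ_e k).symm
    have a3 : e (μ + 2) k = ((k : ℝ) + 1) * e (μ + 1) (k + 1) := by
      have := succ_e (μ := μ + 1) k
      rw [show μ + 1 + 1 = μ + 2 by ring] at this
      exact this.symm
    have hk : (0 : ℝ) ≤ k := Nat.cast_nonneg k
    have b1 : 0 < μ + 1 + k + 1 := by linarith
    have b2 : (0 : ℝ) < k + 1 := by positivity
    rw [a3, a1, a2]
    field_simp
    ring
  unfold j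
  rw [s0.tsum_eq_zero_add, s1.tsum_eq_zero_add]
  have e3 : c * ∑' k, e (μ + 2) k * (-c) ^ k = -∑' k, e (μ + 2) k * (-c) ^ (k + 1) := by
    rw [← tsum_mul_left, ← tsum_neg]
    refine tsum_congr fun k => ?_
    ring
  have s2' : Summable fun k => e (μ + 2) k * (-c) ^ (k + 1) := by
    refine (s2.mul_right (-c)).congr fun k => ?_
    ring
  have s1' : Summable fun k => e (μ + 1) (k + 1) * (-c) ^ (k + 1) :=
    (summable_nat_add_iff 1).mpr s1
  have e4 : ∑' k, e μ (k + 1) * (-c) ^ (k + 1) =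
      (μ + 1) * ∑' k, e (μ + 1) (k + 1) * (-c) ^ (k + 1) +
        ∑' k, e (μ + 2) k * (-c) ^ (k + 1) := by
    rw [← tsum_mul_left, ← (s1'.mul_left (μ + 1)).tsum_add s2']
    refine tsum_congr fun k => ?_
    rw [ck]
    ring
  rw [e3, e4, c0]
  ring

/-- The function `j μ` has a positive zero. -/
theorem exists_zero {μ : ℝ} (h : -1 < μ) : ∃ c : ℝ, 0 < c ∧ j μ c = 0 := by
  by_contra hcon
  push Not at hcon
  have h1 : -1 < μ + 1 := by linarith
  have hm : 0 < μ + 1 := by linarith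
  have hcont : Continuous (j μ) := continuous_iff_continuousAt.mpr fun c =>
    (j_hasDerivAt h c).continuousAt
  have hcont1 : Continuous (j (μ + 1)) := continuous_iff_continuousAt.mpr fun c =>
    (j_hasDerivAt h1 c).continuousAt
  have hj0 : 0 < j μ 0 := by rw [j_zero]; exact e_pos h 0
  have hpos : ∀ c, 0 ≤ c → 0 < j μ c := by
    intro c hc
    by_contra hneg
    push Not at hneg
    obtain ⟨z, hz, hz0⟩ := intermediate_value_Icc' hc hcont.continuousOn
      (show (0 : ℝ) ∈ Icc (j μ c) (j μ 0) from ⟨hneg, hj0.le⟩)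
    rcases hz.1.eq_or_lt with h' | h'
    · rw [← h'] at hz0; exact hj0.ne' hz0
    · exact hcon z h' hz0
  -- `P c = c^(μ+1) j_{μ+1}(c)`
  set P : ℝ → ℝ := fun c => c ^ (μ + 1) * j (μ + 1) c with hP
  have hP0 : P 0 = 0 := by
    simp only [hP]
    rw [Real.zero_rpow hm.ne', zero_mul]
  have hrc : Continuous fun c : ℝ => c ^ (μ + 1) := Real.continuous_rpow_const hm.le
  have hPc : Continuous P := hrc.mul hcont1
  have hrd : ∀ c : ℝ, 0 < c → HasDerivAt (fun c : ℝ => c ^ (μ + 1)) ((μ + 1) * c ^ μ) c := by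
    intro c hc
    have := Real.hasDerivAt_rpow_const (x := c) (p := μ + 1) (Or.inl hc.ne')
    rwa [show μ + 1 - 1 = μ by ring] at this
  have hcpow : ∀ c : ℝ, 0 < c → c ^ (μ + 1) = c * c ^ μ := by
    intro c hc
    rw [Real.rpow_add hc, Real.rpow_one, mul_comm]
  have hPd : ∀ c : ℝ, 0 < c → HasDerivAt P (c ^ μ * j μ c) c := by
    intro c hc
    have := (hrd c hc).mul (j_hasDerivAt h1 c)
    rw [show μ + 1 + 1 = μ + 2 by ring] at this
    have e1 : c ^ μ * j μ c = (μ + 1) * c ^ μ * j (μ + 1) c + c ^ (μ + 1) * -(j (μ + 2) c) := by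
      rw [← j_rel h c, hcpow c hc]
      ring
    rw [e1]
    exact this
  have hPmono : StrictMonoOn P (Ici 0) := by
    refine strictMonoOn_of_deriv_pos (convex_Ici 0) hPc.continuousOn fun c hc => ?_
    rw [interior_Ici] at hc
    have hc' : 0 < c := hc
    rw [(hPd c hc').deriv]
    exact mul_pos (Real.rpow_pos_of_pos hc' μ) (hpos c hc'.le)
  have hPpos : ∀ c, 0 < c → 0 < P c := by
    intro c hc
    have := hPmono (show (0 : ℝ) ∈ Ici (0 : ℝ) by simp) (show c ∈ Ici (0 : ℝ) from hc.le) hc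
    rwa [hP0] at this
  -- `Q`
  set Q : ℝ → ℝ := fun c => P c - c ^ (μ + 1) * j μ c / (μ + 1) with hQ
  have hQ0 : Q 0 = 0 := by
    simp only [hQ]
    rw [hP0, Real.zero_rpow hm.ne']
    simp
  have hQd : ∀ c : ℝ, 0 < c → HasDerivAt Q (P c / (μ + 1)) c := by
    intro c hc
    have h3 := (hPd c hc).sub (((hrd c hc).mul (j_hasDerivAt h c)).div_const (μ + 1))
    have e1 : P c / (μ + 1) = c ^ μ * j μ c -
        ((μ + 1) * c ^ μ * j μ c + c ^ (μ + 1) * -(j (μ + 1) c)) / (μ + 1) := by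
      simp only [hP]
      field_simp
      ring
    rw [e1]
    exact h3
  have hQmono : MonotoneOn Q (Ici 0) := by
    refine monotoneOn_of_deriv_nonneg (convex_Ici 0) ?_ ?_ fun c hc => ?_
    · exact (hPc.sub ((hrc.mul hcont).div_const _)).continuousOn
    · intro c hc
      rw [interior_Ici] at hc
      exact (hQd c hc).differentiableAt.differentiableWithinAt
    · rw [interior_Ici] at hc
      rw [(hQd c hc).deriv]
      exact div_nonneg (hPpos c hc).le hm.le
  have hcmp : ∀ c, 0 < c → j μ c / (μ + 1) ≤ j (μ + 1) c := by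
    intro c hc
    have h3 := hQmono (show (0 : ℝ) ∈ Ici (0 : ℝ) by simp) (show c ∈ Ici (0 : ℝ) from hc.le) hc.le
    rw [hQ0] at h3
    have h4 : 0 < c ^ (μ + 1) := Real.rpow_pos_of_pos hc _
    have h5 : c ^ (μ + 1) * (j μ c / (μ + 1)) ≤ c ^ (μ + 1) * j (μ + 1) c := by
      simp only [hQ, hP] at h3
      rw [mul_div_assoc] at h3
      linarith
    exact le_of_mul_le_mul_left h5 h4
  -- exponential upper bound
  set T : ℝ → ℝ := fun c => Real.exp (c / (μ + 1)) * j μ c with hT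
  have hTd : ∀ c : ℝ, HasDerivAt T (Real.exp (c / (μ + 1)) * (1 / (μ + 1)) * j μ c +
      Real.exp (c / (μ + 1)) * -(j (μ + 1) c)) c := fun c =>
    (((hasDerivAt_id c).div_const (μ + 1)).exp).mul (j_hasDerivAt h c)
  have hTanti : AntitoneOn T (Ici 0) := by
    refine antitoneOn_of_deriv_nonpos (convex_Ici 0) ?_ ?_ fun c hc => ?_
    · exact fun c _ => (hTd c).continuousAt.continuousWithinAt
    · exact fun c _ => (hTd c).differentiableAt.differentiableWithinAt
    · rw [interior_Ici] at hc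
      rw [(hTd c).deriv]
      have h3 := hcmp c hc
      have h4 : Real.exp (c / (μ + 1)) * (1 / (μ + 1)) * j μ c +
          Real.exp (c / (μ + 1)) * -(j (μ + 1) c) =
          Real.exp (c / (μ + 1)) * (j μ c / (μ + 1) - j (μ + 1) c) := by ring
      rw [h4]
      exact mul_nonpos_of_nonneg_of_nonpos (Real.exp_pos _).le (by linarith)
  have hup : ∀ c, 0 ≤ c → Real.exp (c / (μ + 1)) * j μ c ≤ j μ 0 := by
    intro c hc
    have h3 := hTanti (show (0 : ℝ) ∈ Ici (0 : ℝ) by simp) (show c ∈ Ici (0 : ℝ) from hc) hc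
    simp only [hT] at h3
    simpa using h3
  -- polynomial lower bound
  have hlow : ∀ c, 1 ≤ c → P 1 * c ≤ (2 * c) ^ (μ + 1) * j μ c := by
    intro c hc
    have hc0 : 0 < c := by linarith
    obtain ⟨ξ, hξ, hξd⟩ := exists_hasDerivAt_eq_slope (j μ) (fun c => -(j (μ + 1) c))
      (show c < 2 * c by linarith) hcont.continuousOn fun x _ => j_hasDerivAt h x
    have hξ0 : 0 < ξ := hc0.trans hξ.1
    have h3 : j μ c - j μ (2 * c) = c * j (μ + 1) ξ := by
      rw [eq_div_iff (by linarith)] at hξd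
      linarith
    have h4 : P 1 ≤ P ξ := (hPmono (show (1 : ℝ) ∈ Ici (0 : ℝ) from by simp)
      (show ξ ∈ Ici (0 : ℝ) from hξ0.le) (by linarith [hξ.1])).le
    have h5 : ξ ^ (μ + 1) ≤ (2 * c) ^ (μ + 1) := Real.rpow_le_rpow hξ0.le hξ.2.le hm.le
    have h6 : 0 < j (μ + 1) ξ := by
      have h7 := hPpos ξ hξ0
      simp only [hP] at h7
      exact (mul_pos_iff_of_pos_left (Real.rpow_pos_of_pos hξ0 _)).mp h7
    have h7 : P 1 ≤ (2 * c) ^ (μ + 1) * j (μ + 1) ξ := by
      refine h4.trans ?_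
      simp only [hP]
      exact mul_le_mul_of_nonneg_right h5 h6.le
    have h8 := hpos (2 * c) (by linarith)
    have h9 : 0 < (2 * c) ^ (μ + 1) := Real.rpow_pos_of_pos (by linarith) _
    calc P 1 * c ≤ (2 * c) ^ (μ + 1) * j (μ + 1) ξ * c := mul_le_mul_of_nonneg_right h7 hc0.le
      _ = (2 * c) ^ (μ + 1) * (j μ c - j μ (2 * c)) := by rw [h3]; ring
      _ ≤ (2 * c) ^ (μ + 1) * j μ c := mul_le_mul_of_nonneg_left (by linarith) h9.le
  -- contradiction
  have hlim := tendsto_rpow_mul_exp_neg_mul_atTop_nhds_zero (μ + 1) (1 / (μ + 1)) (by positivity)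
  have hlim2 : Tendsto (fun c : ℝ => 2 ^ (μ + 1) * j μ 0 *
      (c ^ (μ + 1) * Real.exp (-(1 / (μ + 1)) * c))) atTop (𝓝 0) := by
    have := hlim.const_mul (2 ^ (μ + 1) * j μ 0)
    rwa [mul_zero] at this
  have hP1 : 0 < P 1 := hPpos 1 one_pos
  obtain ⟨c, hc⟩ := ((hlim2.eventually (gt_mem_nhds hP1)).and (eventually_ge_atTop 1)).exists
  have hc1 : 1 ≤ c := hc.2
  have hc0 : 0 < c := by linarith
  have a1 := hlow c hc1
  have a2 := hup c hc0.le
  have a3 : 0 < Real.exp (c / (μ + 1)) := Real.exp_pos _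
  have a4 : Real.exp (-(1 / (μ + 1)) * c) * Real.exp (c / (μ + 1)) = 1 := by
    rw [← Real.exp_add]
    have : -(1 / (μ + 1)) * c + c / (μ + 1) = 0 := by ring
    rw [this, Real.exp_zero]
  have a5 : (2 * c) ^ (μ + 1) = 2 ^ (μ + 1) * c ^ (μ + 1) :=
    Real.mul_rpow (by norm_num) hc0.le
  have a6 : j μ c ≤ j μ 0 * Real.exp (-(1 / (μ + 1)) * c) := by
    have : j μ c = (Real.exp (c / (μ + 1)) * j μ c) * Real.exp (-(1 / (μ + 1)) * c) := by
      calc j μ c = j μ c * (Real.exp (-(1 / (μ + 1)) * c) * Real.exp (c / (μ + 1))) := by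
            rw [a4, mul_one]
        _ = _ := by ring
    rw [this]
    exact mul_le_mul_of_nonneg_right a2 (Real.exp_pos _).le
  have a7 : 0 < (2 * c) ^ (μ + 1) := Real.rpow_pos_of_pos (by linarith) _
  have a8 : P 1 * c ≤ 2 ^ (μ + 1) * j μ 0 * (c ^ (μ + 1) * Real.exp (-(1 / (μ + 1)) * c)) := by
    calc P 1 * c ≤ (2 * c) ^ (μ + 1) * j μ c := a1
      _ ≤ (2 * c) ^ (μ + 1) * (j μ 0 * Real.exp (-(1 / (μ + 1)) * c)) :=
          mul_le_mul_of_nonneg_left a6 a7.le
      _ = _ := by rw [a5]; ring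
  have a9 : P 1 ≤ P 1 * c := le_mul_of_one_le_right hP1.le hc1
  linarith [hc.1]

end

end Pool.Agent.Q210.HC
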