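import Mathlib
import Pool.Agent.Q210.HC.Zero

/-!
# The entire function behind products of Bessel functions
-/

open Filter Topology Set Polynomial

namespace Pool.Agent.Q210.HC

noncomputable section

/-! ### Chebyshev polynomials -/

theorem cheb_bound (w : ℂ) (n : ℕ) :
    ‖(Chebyshev.T ℂ (n : ℤ)).eval (w / 2)‖ ≤ (1 + ‖w‖) ^ n ∧
    ‖(Chebyshev.T ℂ ((n : ℤ) + 1)).eval (w / 2)‖ ≤ (1 + ‖w‖) ^ (n + 1) := by
  have hw := norm_nonneg w
  induction n with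
  | zero =>
    constructor
    · simp
    · simp only [Nat.cast_zero, zero_add, Chebyshev.T_one, eval_X, pow_one, norm_div]
      have : ‖(2 : ℂ)‖ = 2 := by simp
      rw [this]
      linarith
  | succ n ih =>
    refine ⟨by push_cast; exact ih.2, ?_⟩
    have h1 : ((n + 1 : ℕ) : ℤ) + 1 = (n : ℤ) + 2 := by push_cast; ring
    rw [h1, Chebyshev.T_add_two]
    simp only [eval_sub, eval_mul, eval_ofNat, eval_X]
    have h2 : (2 : ℂ) * (w / 2) = w := by ring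
    rw [h2]
    calc ‖w * eval (w / 2) (Chebyshev.T ℂ ((n : ℤ) + 1)) - eval (w / 2) (Chebyshev.T ℂ (n : ℤ))‖
        ≤ ‖w * eval (w / 2) (Chebyshev.T ℂ ((n : ℤ) + 1))‖ +
          ‖eval (w / 2) (Chebyshev.T ℂ (n : ℤ))‖ := norm_sub_le _ _
      _ ≤ ‖w‖ * (1 + ‖w‖) ^ (n + 1) + (1 + ‖w‖) ^ n := by
          rw [norm_mul]
          exact add_le_add (mul_le_mul_of_nonneg_left ih.2 hw) ih.1
      _ ≤ (1 + ‖w‖) ^ (n + 1 + 1) := by
          have h3 : 0 ≤ (1 + ‖w‖) ^ n := by positivity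
          have h4 : (1 + ‖w‖) ^ (n + 1 + 1) = (1 + ‖w‖) ^ n * (1 + ‖w‖) ^ 2 := by ring
          have h5 : ‖w‖ * (1 + ‖w‖) ^ (n + 1) + (1 + ‖w‖) ^ n =
              (1 + ‖w‖) ^ n * (‖w‖ * (1 + ‖w‖) + 1) := by ring
          rw [h4, h5]
          exact mul_le_mul_of_nonneg_left (by nlinarith) h3

theorem cheb_bound' (w : ℂ) (i k : ℕ) :
    ‖(Chebyshev.T ℂ (2 * ((i : ℤ) - k))).eval (w / 2)‖ ≤ ((1 + ‖w‖) ^ 2) ^ i *
      ((1 + ‖w‖) ^ 2) ^ k := by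
  have h1 : 1 ≤ 1 + ‖w‖ := by linarith [norm_nonneg w]
  have key : ∀ a b : ℕ, b ≤ a → ‖(Chebyshev.T ℂ (2 * ((a : ℤ) - b))).eval (w / 2)‖ ≤
      (1 + ‖w‖) ^ (2 * a + 2 * b) := by
    intro a b hab
    have h2 : (2 * ((a : ℤ) - b)) = ((2 * (a - b) : ℕ) : ℤ) := by
      push_cast [Nat.cast_sub hab]; ring
    rw [h2]
    exact (cheb_bound w _).1.trans (pow_le_pow_right₀ h1 (by omega))
  have h3 : ((1 + ‖w‖) ^ 2) ^ i * ((1 + ‖w‖) ^ 2) ^ k = (1 + ‖w‖) ^ (2 * i + 2 * k) := by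
    rw [← pow_mul, ← pow_mul, ← pow_add]
  rw [h3]
  rcases le_total k i with h | h
  · exact key i k h
  · have h4 : (2 * ((i : ℤ) - k)) = -(2 * ((k : ℤ) - i)) := by ring
    rw [h4, Chebyshev.T_neg, add_comm (2 * i)]
    exact key k i h

theorem cheb_v {u v : ℂ} (huv : u * v = 1) (n : ℕ) :
    (Chebyshev.T ℂ (n : ℤ)).eval ((v + u) / 2) = (v ^ n + u ^ n) / 2 ∧
    (Chebyshev.T ℂ ((n : ℤ) + 1)).eval ((v + u) / 2) = (v ^ (n + 1) + u ^ (n + 1)) / 2 := by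
  induction n with
  | zero => simp
  | succ n ih =>
    refine ⟨by push_cast; exact ih.2, ?_⟩
    have h1 : ((n + 1 : ℕ) : ℤ) + 1 = (n : ℤ) + 2 := by push_cast; ring
    rw [h1, Chebyshev.T_add_two]
    simp only [eval_sub, eval_mul, eval_ofNat, eval_X]
    rw [ih.1, ih.2]
    linear_combination ((u ^ n + v ^ n) / 2) * huv

theorem cheb_v' {u v : ℂ} (huv : u * v = 1) (i k : ℕ) :
    (Chebyshev.T ℂ (2 * ((i : ℤ) - k))).eval ((v + u) / 2) =
      ((v ^ 2) ^ i * (u ^ 2) ^ k + (u ^ 2) ^ i * (v ^ 2) ^ k) / 2 := by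
  have key : ∀ a b : ℕ, b ≤ a → (Chebyshev.T ℂ (2 * ((a : ℤ) - b))).eval ((v + u) / 2) =
      ((v ^ 2) ^ a * (u ^ 2) ^ b + (u ^ 2) ^ a * (v ^ 2) ^ b) / 2 := by
    intro a b hab
    obtain ⟨d, rfl⟩ := Nat.exists_eq_add_of_le hab
    have h2 : (2 * (((b + d : ℕ) : ℤ) - b)) = ((2 * d : ℕ) : ℤ) := by push_cast; ring
    rw [h2, (cheb_v huv _).1]
    have h3 : (u ^ 2) ^ b * (v ^ 2) ^ b = 1 := by
      rw [← mul_pow, ← mul_pow, huv]; simp
    rw [pow_mul, pow_mul, pow_add, pow_add]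
    linear_combination (-((v ^ 2) ^ d + (u ^ 2) ^ d) / 2) * h3
  rcases le_total k i with h | h
  · exact key i k h
  · have h4 : (2 * ((i : ℤ) - k)) = -(2 * ((k : ℤ) - i)) := by ring
    rw [h4, Chebyshev.T_neg, key k i h]
    ring

/-! ### The entire function -/

/-- The entire function with `K (v + 1/v) = E(c v^2) E(c / v^2)`. -/
def K (μ c : ℝ) (w : ℂ) : ℂ := ∑' p : ℕ × ℕ, ((e μ p.1 * e μ p.2 * c ^ (p.1 + p.2) : ℝ) : ℂ) *
  (Chebyshev.T ℂ (2 * ((p.1 : ℤ) - p.2))).eval (w / 2)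

/-- Its restriction to the real line. -/
def kR (μ c x : ℝ) : ℝ := ∑' p : ℕ × ℕ, (e μ p.1 * e μ p.2 * c ^ (p.1 + p.2)) *
  (Chebyshev.T ℝ (2 * ((p.1 : ℤ) - p.2))).eval (x / 2)

/-- The real entire series. -/
def ER (μ x : ℝ) : ℝ := ∑' k, e μ k * x ^ k

theorem maj_summable {μ c : ℝ} (h : -1 < μ) (hc : 0 ≤ c) {R : ℝ} (hR : 0 ≤ R) :
    Summable fun p : ℕ × ℕ => (e μ p.1 * e μ p.2 * c ^ (p.1 + p.2)) *
      (((1 + R) ^ 2) ^ p.1 * ((1 + R) ^ 2) ^ p.2) := by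
  have s := e_summable h (c * (1 + R) ^ 2)
  have hn : 0 ≤ fun k => e μ k * (c * (1 + R) ^ 2) ^ k := by
    intro k
    exact mul_nonneg (e_pos h k).le (by positivity)
  refine (s.mul_of_nonneg s hn hn).congr fun p => ?_
  rw [mul_pow, mul_pow, pow_add]
  ring

theorem K_term_bound {μ c : ℝ} (h : -1 < μ) (hc : 0 ≤ c) {R : ℝ} {w : ℂ} (hw : ‖w‖ ≤ R)
    (p : ℕ × ℕ) : ‖((e μ p.1 * e μ p.2 * c ^ (p.1 + p.2) : ℝ) : ℂ) *
      (Chebyshev.T ℂ (2 * ((p.1 : ℤ) - p.2))).eval (w / 2)‖ ≤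
      (e μ p.1 * e μ p.2 * c ^ (p.1 + p.2)) * (((1 + R) ^ 2) ^ p.1 * ((1 + R) ^ 2) ^ p.2) := by
  have h0 : 0 ≤ e μ p.1 * e μ p.2 * c ^ (p.1 + p.2) :=
    mul_nonneg (mul_nonneg (e_pos h _).le (e_pos h _).le) (pow_nonneg hc _)
  rw [norm_mul, Complex.norm_real, Real.norm_of_nonneg h0]
  refine mul_le_mul_of_nonneg_left ((cheb_bound' w p.1 p.2).trans ?_) h0
  have h1 : (1 + ‖w‖) ^ 2 ≤ (1 + R) ^ 2 :=
    pow_le_pow_left₀ (by positivity) (by linarith) 2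
  have h2 : 0 ≤ (1 + ‖w‖) ^ 2 := by positivity
  exact mul_le_mul (pow_le_pow_left₀ h2 h1 _) (pow_le_pow_left₀ h2 h1 _) (by positivity)
    (by positivity)

theorem K_differentiable {μ c : ℝ} (h : -1 < μ) (hc : 0 ≤ c) : Differentiable ℂ (K μ c) := by
  intro w
  have hR : 0 ≤ ‖w‖ + 1 := by positivity
  have hd := Complex.differentiableOn_tsum_of_summable_norm (maj_summable h hc hR)
    (F := fun (p : ℕ × ℕ) (w : ℂ) => ((e μ p.1 * e μ p.2 * c ^ (p.1 + p.2) : ℝ) : ℂ) *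
      (Chebyshev.T ℂ (2 * ((p.1 : ℤ) - p.2))).eval (w / 2)) (U := Metric.ball 0 (‖w‖ + 1))
    (fun p => ?_) Metric.isOpen_ball (fun p z hz => ?_)
  · have hmem : Metric.ball (0 : ℂ) (‖w‖ + 1) ∈ 𝓝 w :=
      Metric.isOpen_ball.mem_nhds (by rw [Metric.mem_ball, dist_zero_right]; linarith)
    exact hd.differentiableAt hmem
  · refine DifferentiableOn.const_mul ?_ _
    have : Differentiable ℂ fun w : ℂ => (Chebyshev.T ℂ (2 * ((p.1 : ℤ) - p.2))).eval (w / 2) :=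
      (Polynomial.differentiable _).comp (differentiable_id.div_const (2 : ℂ))
    exact this.differentiableOn
  · rw [Metric.mem_ball, dist_zero_right] at hz
    exact K_term_bound h hc hz.le p

theorem K_real (μ c x : ℝ) : K μ c x = (kR μ c x : ℂ) := by
  unfold K kR
  rw [Complex.ofReal_tsum]
  refine tsum_congr fun p => ?_
  conv_rhs => rw [Complex.ofReal_mul, Chebyshev.complex_ofReal_eval_T]
  push_cast
  rfl

theorem K_v {μ c : ℝ} (h : -1 < μ) {u v : ℂ} (huv : u * v = 1) :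
    K μ c (v + u) = (∑' k, (e μ k : ℂ) * (c * v ^ 2) ^ k) * (∑' k, (e μ k : ℂ) * (c * u ^ 2) ^ k)
    := by
  have hs : ∀ z : ℂ, Summable fun k => ‖(e μ k : ℂ) * z ^ k‖ := by
    intro z
    refine (e_summable h ‖z‖).congr fun k => ?_
    rw [norm_mul, norm_pow, Complex.norm_real, Real.norm_of_nonneg (e_pos h k).le]
  have h1 := summable_mul_of_summable_norm (hs (c * v ^ 2)) (hs (c * u ^ 2))
  have h2 := summable_mul_of_summable_norm (hs (c * u ^ 2)) (hs (c * v ^ 2))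
  have e1 := tsum_mul_tsum_of_summable_norm (hs (c * v ^ 2)) (hs (c * u ^ 2))
  have e2 := tsum_mul_tsum_of_summable_norm (hs (c * u ^ 2)) (hs (c * v ^ 2))
  have e3 : K μ c (v + u) = ∑' p : ℕ × ℕ,
      (((e μ p.1 : ℂ) * (c * v ^ 2) ^ p.1) * ((e μ p.2 : ℂ) * (c * u ^ 2) ^ p.2) +
        ((e μ p.1 : ℂ) * (c * u ^ 2) ^ p.1) * ((e μ p.2 : ℂ) * (c * v ^ 2) ^ p.2)) / 2 := by
    unfold K
    refine tsum_congr fun p => ?_
    rw [cheb_v' huv]
    push_cast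
    rw [mul_pow, mul_pow, mul_pow, mul_pow, pow_add]
    ring
  rw [e3, tsum_div_const, h1.tsum_add h2, ← e1, ← e2]
  ring

theorem kR_v {μ c : ℝ} (h : -1 < μ) {u v : ℝ} (huv : u * v = 1) :
    kR μ c (v + u) = ER μ (c * v ^ 2) * ER μ (c * u ^ 2) := by
  have h1 := K_v (c := c) h (u := (u : ℂ)) (v := (v : ℂ)) (by exact_mod_cast huv)
  have h2 := K_real μ c (v + u)
  have h3 : ∀ x : ℝ, (∑' k, (e μ k : ℂ) * ((x : ℂ)) ^ k) = (ER μ x : ℂ) := by
    intro x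
    unfold ER
    rw [Complex.ofReal_tsum]
    refine tsum_congr fun k => ?_
    push_cast
    rfl
  have h4 : ((c : ℂ) * (v : ℂ) ^ 2) = ((c * v ^ 2 : ℝ) : ℂ) := by push_cast; rfl
  have h5 : ((c : ℂ) * (u : ℂ) ^ 2) = ((c * u ^ 2 : ℝ) : ℂ) := by push_cast; rfl
  rw [h4, h5, h3, h3] at h1
  push_cast at h2
  rw [h2] at h1
  exact_mod_cast h1

theorem kR_zero {μ c : ℝ} (h : -1 < μ) : kR μ c 0 = (j μ c) ^ 2 := by
  have h1 := K_v (c := c) h (u := -Complex.I) (v := Complex.I) (by simp)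
  rw [add_neg_cancel] at h1
  have h2 := K_real μ c 0
  rw [Complex.ofReal_zero, h1] at h2
  have h3 : ∑' k, (e μ k : ℂ) * ((c : ℂ) * Complex.I ^ 2) ^ k = (j μ c : ℂ) := by
    unfold j
    rw [Complex.ofReal_tsum]
    refine tsum_congr fun k => ?_
    rw [Complex.I_sq]
    push_cast
    ring
  have h4 : ∑' k, (e μ k : ℂ) * ((c : ℂ) * (-Complex.I) ^ 2) ^ k = (j μ c : ℂ) := by
    rw [neg_sq]; exact h3
  rw [h3, h4] at h2
  have h5 : ((j μ c * j μ c : ℝ) : ℂ) = (kR μ c 0 : ℂ) := by push_cast; exact h2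
  have h6 : j μ c * j μ c = kR μ c 0 := by exact_mod_cast h5
  rw [← h6]; ring

theorem ER_pos {μ : ℝ} (h : -1 < μ) {x : ℝ} (hx : 0 < x) : 0 < ER μ x :=
  (e_summable h x).tsum_pos (fun k => mul_nonneg (e_pos h k).le (pow_nonneg hx.le k)) 0
    (mul_pos (e_pos h 0) (pow_pos hx 0))

/-! ### Taylor expansion -/

theorem iter_real {H : ℂ → ℂ} (hH : Differentiable ℂ H) {h : ℝ → ℝ}
    (hh : ∀ x : ℝ, H x = (h x : ℂ)) (n : ℕ) :
    ∀ x : ℝ, iteratedDeriv n H (x : ℂ) = ((iteratedDeriv n h x : ℝ) : ℂ) := by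
  induction n with
  | zero => simpa using hh
  | succ n ih =>
    intro x
    have hd : Differentiable ℂ (iteratedDeriv n H) :=
      (hH.contDiff (n := ⊤)).differentiable_iteratedDeriv n (by exact_mod_cast WithTop.coe_lt_top _)
    have h1 := (hd (x : ℂ)).hasDerivAt
    have h2 := h1.real_of_complex
    have h3 : (fun y : ℝ => (iteratedDeriv n H y).re) = iteratedDeriv n h := by
      funext y; rw [ih y]; simp
    rw [h3] at h2
    have h4 := h1.comp_ofReal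
    have h5 := h2.ofReal_comp
    have h6 : (fun y : ℝ => iteratedDeriv n H y) = fun y : ℝ => ((iteratedDeriv n h y : ℝ) : ℂ) :=
      funext ih
    rw [h6] at h4
    rw [iteratedDeriv_succ, iteratedDeriv_succ, h4.unique h5, h2.deriv]

theorem le_at_zero {H : ℂ → ℂ} (hH : Differentiable ℂ H) {h : ℝ → ℝ}
    (hh : ∀ x : ℝ, H x = (h x : ℂ)) (hcm : ∀ n : ℕ, 0 ≤ (-1) ^ n * iteratedDeriv n h 3) :
    h 3 ≤ h 0 := by
  have h1 := Complex.hasSum_taylorSeries_of_entire hH (3 : ℂ) (0 : ℂ)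
  have h2 : HasSum (fun n : ℕ => ((((n.factorial : ℝ))⁻¹ * (0 - 3) ^ n * iteratedDeriv n h 3 : ℝ) : ℂ))
      (h 0 : ℂ) := by
    rw [← hh 0, Complex.ofReal_zero]
    refine h1.congr_fun ?_
    intro n
    have h3 := iter_real hH hh n 3
    push_cast
    rw [← h3]
    simp only [smul_eq_mul, zero_sub, Complex.ofReal_ofNat]
    ring
  rw [Complex.hasSum_ofReal] at h2
  have h3 := le_hasSum h2 0 fun n _ => ?_
  · simpa using h3
  · have h4 : ((n.factorial : ℝ))⁻¹ * (0 - 3) ^ n * iteratedDeriv n h 3 =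
        ((n.factorial : ℝ))⁻¹ * 3 ^ n * ((-1) ^ n * iteratedDeriv n h 3) := by
      rw [show (0 - 3 : ℝ) = (-1) * 3 by norm_num, mul_pow]
      ring
    rw [h4]
    exact mul_nonneg (by positivity) (hcm n)

end

end Pool.Agent.Q210.HC
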